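import Pool.Agent.X277.SR.Tame

set_option autoImplicit false

/-! Finite-index subgroups of a finitely generated group all of whose finite quotients are quotients
of `SL_n(ℤ)`, `n ≥ 3`: homomorphisms to groups built from finite groups, abelian groups and linear
groups in positive characteristic have finite image. -/

namespace Pool.Agent.Results.MP_a2a22c_al.FiniteImages

open Pool.Agent.X277.SR

universe u

/-- **Finite images.** Let `n ≥ 3` and let `Λ` be a finitely generated group such that every finite
quotient of `Λ` is a quotient of `SL_n(ℤ)`. Let `Δ` be a subgroup of finite index of `Λ` and `G` a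
group with a finite series with factors which are finite, abelian or linear over a field of positive
characteristic. Then every homomorphism `Δ → G` has finite image. -/
theorem result (n : ℕ) (hn : 3 ≤ n) (Λ : Type) [Group Λ] [Group.FG Λ] (h : QuotientsOfSL n Λ)
    (Δ : Subgroup Λ) (hΔ : Δ.FiniteIndex) (G : Type u) [Group G] (k : ℕ) (hG : Tame k G)
    (f : Δ →* G) : (Set.range f).Finite := by
  have h1 : f.ker.FiniteIndex := tame_fi h hn k Δ G f hG
  have h2 : Finite (Δ ⧸ f.ker) := Subgroup.finite_quotient_of_finiteIndex
  have h3 : Finite f.range := Finite.of_equiv _ (QuotientGroup.quotientKerEquivRange f).toEquiv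
  rw [← MonoidHom.coe_range]
  exact Set.toFinite _

end Pool.Agent.Results.MP_a2a22c_al.FiniteImages
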