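import Pool.Agent.X277.SR.Gen2

set_option autoImplicit false

/-! Finite-index subgroups of a finitely generated group all of whose finite quotients are quotients
of `SL_n(ℤ)`, `n ≥ 3`, have only finitely many characters of each degree over each field of
characteristic zero. -/

namespace Pool.Agent.Results.MP_a2a22c_al.FinitelyManyCharacters

open Pool.Agent.X277.SR Polynomial

universe u

/-- the characters of degree `m` of a group over a field -/
def IsCharacter {Δ : Type} [Group Δ] {K : Type u} [Field K] (m : ℕ) (χ : Δ → K) : Prop :=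
  ∃ ρ : Δ →* Matrix.GeneralLinearGroup (Fin m) K, ∀ l, χ l = Matrix.trace (ρ l).1

/-- **Representation rigidity in characteristic zero.** Let `n ≥ 3`, let `Λ` be a finitely generated
group such that every finite quotient of `Λ` is a quotient of `SL_n(ℤ)`, let `Δ` be a subgroup of
finite index of `Λ` and `m ≥ 0`. Over every field of characteristic zero `Δ` has only finitely many
characters of degree `m`. For each `l ∈ Δ` there is a nonzero polynomial `f ∈ ℤ[X]` with
`f(χ(l)) = 0` for all characters `χ` of degree `m` of `Δ` over all fields of characteristic zero; so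
characters take algebraic values. -/
theorem result (n : ℕ) (hn : 3 ≤ n) (Λ : Type) [Group Λ] [Group.FG Λ] (h : QuotientsOfSL n Λ)
    (Δ : Subgroup Λ) (hΔ : Δ.FiniteIndex) (m : ℕ) :
    (∀ (K : Type u) [Field K] [CharZero K], {χ : Δ → K | IsCharacter m χ}.Finite) ∧
    (∀ l : Δ, ∃ f : ℤ[X], f ≠ 0 ∧ ∀ (K : Type u) [Field K] [CharZero K] (χ : Δ → K),
      IsCharacter m χ → aeval (χ l) f = 0) := by
  have h0 : PF.{0} Δ := fun p _ m K _ _ ρ => finite_image_sub Δ ρ h hn p
  have h1 : PF.{u} Δ := fun p _ m K _ _ ρ => finite_image_sub Δ ρ h hn p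
  refine ⟨fun K _ _ => finite_charactersG h0 h1 m K, fun l => ?_⟩
  obtain ⟨f, hf0, hf⟩ := uniformG.{u} h1 m l
  refine ⟨f, hf0, ?_⟩
  rintro K _ _ χ ⟨ρ, hρ⟩
  rw [hρ]
  exact (hf K ρ).1

end Pool.Agent.Results.MP_a2a22c_al.FinitelyManyCharacters
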