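import Pool.Agent.X277.SR.Aut
import Pool.Agent.X277.SR.Loc

set_option autoImplicit false

/-! A finitely generated group all of whose finite quotients are quotients of `SL_n(ℤ)` acts
trivially on everything of dimension below `n`. -/

namespace Pool.Agent.Results.MP_a2a22c_al.NoSmallRepresentations

open Pool.Agent.X277.SR

universe u

/-- **Groups with the finite quotients of `SL_n(ℤ)` in dimension below `n`.** Let `n ≥ 3` and let
`Λ` be a finitely generated group such that every finite quotient of `Λ` is a quotient of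
`SL_n(ℤ)`.
(1) `Λ` has no nontrivial abelian quotient.
(2) Every action of `Λ` by `R`-linear maps on a module with fewer than `n` generators over a
commutative ring `R` is trivial.
(3) Every action of `Λ` by automorphisms of a group `G` whose abelianization has fewer than `n`
generators is trivial modulo each term of the lower central series, and trivial if `G` is residually
nilpotent.
(4) Every action of `Λ` by automorphisms of a commutative ring `A` which is trivial modulo an ideal
`m` with fewer than `n` generators is trivial modulo each power of `m`, and trivial if `A` is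
Noetherian, `m` is proper and `A` is local or a domain. -/
theorem result (n : ℕ) (hn : 3 ≤ n) (Λ : Type) [Group Λ] [Group.FG Λ]
    (h : ∀ (Q : Type) [Group Q] [Finite Q] (f : Λ →* Q), Function.Surjective f →
      ∃ g : Matrix.SpecialLinearGroup (Fin n) ℤ →* Q, Function.Surjective g) :
    (∀ (A : Type u) [CommGroup A] (f : Λ →* A) (l : Λ), f l = 1) ∧
    (∀ (R M : Type u) [CommRing R] [AddCommGroup M] [Module R M] (s : Finset M), s.card < n →
      Submodule.span R (s : Set M) = ⊤ → ∀ (ρ : Λ →* Module.End R M) (l : Λ), ρ l = 1) ∧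
    (∀ (G : Type u) [Group G] (s : Finset G), s.card < n →
      Subgroup.closure (s : Set G) ⊔ commutator G = ⊤ → ∀ φ : Λ →* MulAut G,
        (∀ (k : ℕ) (l : Λ) (g : G), φ l g * g⁻¹ ∈ (⊤ : Subgroup G).lowerCentralSeries k) ∧
        ((∀ g : G, g ≠ 1 → ∃ k : ℕ, g ∉ (⊤ : Subgroup G).lowerCentralSeries k) →
          ∀ l : Λ, φ l = 1)) ∧
    (∀ (A : Type u) [CommRing A] (s : Finset A), s.card < n → ∀ φ : Λ →* RingAut A,
      (∀ (l : Λ) (a : A), φ l a - a ∈ Ideal.span (s : Set A)) →
        (∀ (k : ℕ) (l : Λ) (a : A), φ l a - a ∈ Ideal.span (s : Set A) ^ k) ∧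
        (IsNoetherianRing A → Ideal.span (s : Set A) ≠ ⊤ → IsLocalRing A ∨ IsDomain A →
          ∀ l : Λ, φ l = 1)) := by
  have hQ : QuotientsOfSL n Λ := h
  refine ⟨fun A _ f l => perfect hQ hn f l, fun R M _ _ _ s hs hs' ρ l =>
    mod_trivial hQ hn s hs hs' ρ l, fun G _ s hs hs' φ => ⟨fun k l g => ?_, fun hres l =>
    aut_trivial hQ hn s hs hs' hres φ l⟩, fun A _ s hs φ hf => ⟨fun k l a =>
    ideal_trivial hQ hn s hs rfl φ hf k l a, fun hN hne hA l => ?_⟩⟩
  · exact (⊤ : Subgroup G).lowerCentralSeries_antitone (Nat.le_succ k)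
      (aut_trivial_mod hQ hn s hs hs' φ k l g)
  · ext a
    have h1 : φ l a - a ∈ (⨅ i : ℕ, Ideal.span (s : Set A) ^ i : Ideal A) := by
      rw [Submodule.mem_iInf]
      exact fun k => ideal_trivial hQ hn s hs rfl φ hf k l a
    have h2 : (⨅ i : ℕ, Ideal.span (s : Set A) ^ i : Ideal A) = ⊥ := by
      rcases hA with hA | hA
      · exact Ideal.iInf_pow_eq_bot_of_isLocalRing _ hne
      · exact Ideal.iInf_pow_eq_bot_of_isDomain _ hne
    rw [h2] at h1
    exact sub_eq_zero.mp h1

end Pool.Agent.Results.MP_a2a22c_al.NoSmallRepresentations
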