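import Pool.Agent.X277.SR.Pos

set_option autoImplicit false

/-! A finitely generated group all of whose finite quotients are quotients of `SL_n(ℤ)`: linear
representations in positive characteristic have finite image. -/

namespace Pool.Agent.Results.MP_a2a22c_al.RepresentationRigidity

open Pool.Agent.X277.SR

universe u

/-- **Representations in positive characteristic.** Let `n ≥ 3`, `m ≥ 0` and let `p` be a prime.
There is a normal subgroup `H` of finite index of `SL_n(ℤ)` with the following property. Let `Λ` be
a finitely generated group such that every finite quotient of `Λ` is a quotient of `SL_n(ℤ)`, let `K`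
be a field of characteristic `p` and `ρ : Λ → GL_m(K)` a homomorphism. Then the image of `ρ` is
finite, and it is a quotient of `SL_n(ℤ) / H`. -/
theorem result (n : ℕ) (hn : 3 ≤ n) (m p : ℕ) (hp : p.Prime) :
    ∃ H : Subgroup (Matrix.SpecialLinearGroup (Fin n) ℤ), H.Normal ∧ H.FiniteIndex ∧
      ∀ (Λ : Type) [Group Λ] [Group.FG Λ], QuotientsOfSL n Λ →
        ∀ (K : Type u) [Field K] [CharP K p] (ρ : Λ →* Matrix.GeneralLinearGroup (Fin m) K),
          ImageQuotientOf n H ρ := by
  have hp' : Fact p.Prime := ⟨hp⟩
  have hF : Finite (FQ n m p) := fin_EN (by rw [Fintype.card_fin]; exact hn)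
    (Nat.mul_pos (Nat.factorial_pos m) (pow_pos hp.pos m))
  refine ⟨EN (Fin n) (m.factorial * p ^ m), inferInstance,
    Subgroup.finiteIndex_of_finite_quotient, ?_⟩
  intro Λ _ _ h K _ _ ρ
  obtain ⟨g, hg⟩ := image_quotient h hn p m ρ
  refine ⟨finite_image h hn p m ρ, g.comp (QuotientGroup.mk' _),
    hg.comp (QuotientGroup.mk'_surjective _), ?_⟩
  intro x hx
  have : QuotientGroup.mk' (EN (Fin n) (m.factorial * p ^ m)) x = 1 :=
    (QuotientGroup.eq_one_iff x).mpr hx
  rw [MonoidHom.mem_ker, MonoidHom.comp_apply, this, map_one]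

end Pool.Agent.Results.MP_a2a22c_al.RepresentationRigidity
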